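import Mathlib
import Pool.Agent.Q261.QS.Sym

/-!
MP_8daebb_an: contact of infinite order of a stationary varifold with an affine plane.
-/

namespace Pool.Agent.Results.MP_8daebb_an.InfiniteContact

open MeasureTheory Set Filter Topology Metric
open Pool.Agent.TH337.VF (density)
open scoped ENNReal RealInnerProductSpace

/-- Euclidean space. -/
abbrev E (N : ℕ) := EuclideanSpace ℝ (Fin N)

variable {N : ℕ}

/-- The orthogonal projection onto a plane. -/
noncomputable def proj (S : Submodule ℝ (E N)) : E N →L[ℝ] E N := S.starProjection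

/-- The dimension of a plane. -/
noncomputable def dim (S : Submodule ℝ (E N)) : ℕ := Module.finrank ℝ S

/-- The trace, the sum of the diagonal entries. -/
noncomputable def tr (L : E N →L[ℝ] E N) : ℝ := ∑ i, L (EuclideanSpace.single i 1) i

/-- The divergence of `X` along the plane `S`: the trace of the projection onto `S` composed with
the derivative of `X`. -/
noncomputable def dvg (S : Submodule ℝ (E N)) (X : E N → E N) (x : E N) : ℝ :=
  tr (proj S ∘L fderiv ℝ X x)

/-- The plane field is measurable. -/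
def MeasurablePlanes (T : E N → Submodule ℝ (E N)) : Prop := Measurable fun x => proj (T x)

/-- `X` is a `C¹` vector field with compact support in `U`. -/
def IsTestField (U : Set (E N)) (X : E N → E N) : Prop :=
  ContDiff ℝ 1 X ∧ HasCompactSupport X ∧ tsupport X ⊆ U

/-- The weight measure `μ` together with the field of tangent planes `T` is a stationary
`m`-dimensional varifold in `U`: `μ` is finite on compact subsets of `U`, the plane field is
measurable, `T x` is an `m`-plane for `μ`-almost every `x` in `U`, and the first variation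
vanishes. -/
structure IsStationaryVarifold (m : ℕ) (U : Set (E N)) (μ : Measure (E N))
    (T : E N → Submodule ℝ (E N)) : Prop where
  finite_compact : ∀ K ⊆ U, IsCompact K → μ K < ⊤
  measurable_plane : MeasurablePlanes T
  dim_plane : ∀ᵐ x ∂(μ.restrict U), dim (T x) = m
  stationary : ∀ X : E N → E N, IsTestField U X → ∫ x, dvg (T x) X x ∂μ = 0

/-- The part of the mass in `A` has density zero at `x₀`: `μ (A ∩ B_r(x₀)) / r ^ m → 0`. -/
def DensityZero (m : ℕ) (μ : Measure (E N)) (x₀ : E N) (A : Set (E N)) : Prop :=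
  Tendsto (fun r : ℝ => μ (ball x₀ r ∩ A) / ENNReal.ofReal r ^ m) (𝓝[>] 0) (𝓝 0)

/-- The component of a vector orthogonal to `π`. -/
noncomputable def nrm (π : Submodule ℝ (E N)) (v : E N) : E N := πᗮ.starProjection v

/-- Contact of infinite order at `x₀` with `x₀ + π`: for every `k`, for all small `r > 0`,
the distance of `x` to `x₀ + π` is at most `r ^ k` for `μ`-almost every `x` in `B_r(x₀)`. -/
def Contact (μ : Measure (E N)) (π : Submodule ℝ (E N)) (x₀ : E N) : Prop :=
  ∀ k : ℕ, ∀ᶠ r in 𝓝[>] (0:ℝ), ∀ᵐ x ∂(μ.restrict (ball x₀ r)), ‖nrm π (x - x₀)‖ ≤ r ^ k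

/-- The height over `x₀ + π` tends to zero in the mean at `x₀`. -/
def Flat (m : ℕ) (μ : Measure (E N)) (π : Submodule ℝ (E N)) (x₀ : E N) : Prop :=
  Tendsto (fun r : ℝ => (∫ x in ball x₀ r, ‖nrm π (x - x₀)‖ ∂μ) / r ^ (m + 1)) (𝓝[>] 0) (𝓝 0)

/-- Almost every point `x` near `x₀` of density `Θ(x₀)` has a partner `x'` of density `Θ(x₀)`, at
distance `o(|x - x₀|)`, whose height differs from that of `x` by a fixed proportion of the
height of `x`. -/
def Partners (m : ℕ) (μ : Measure (E N)) (π : Submodule ℝ (E N)) (x₀ : E N) : Prop :=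
  ∃ c : ℝ, 0 < c ∧ ∀ η : ℝ, 0 < η → ∀ᶠ r in 𝓝[>] (0:ℝ), ∀ᵐ x ∂(μ.restrict (ball x₀ r)),
    density m μ x = density m μ x₀ → ∃ x', density m μ x' = density m μ x₀ ∧
      ‖x - x'‖ ≤ η * r ∧ c * ‖nrm π (x - x₀)‖ ≤ ‖nrm π (x - x')‖

/-- Linear isometries of `R^N`. -/
abbrev Iso (N : ℕ) := E N ≃ₗᵢ[ℝ] E N

/-- The value of a linear isometry. -/
noncomputable def app (g : Iso N) (v : E N) : E N := g v

/-- The isometries `g` in `Γ` fix `π` pointwise, and each nonzero vector orthogonal to `π` is moved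
by one of them. -/
def FixesOnly (Γ : Set (Iso N)) (π : Submodule ℝ (E N)) : Prop :=
  (∀ g ∈ Γ, ∀ u ∈ π, app g u = u) ∧ ∀ y ∈ πᗮ, y ≠ 0 → ∃ g ∈ Γ, app g y ≠ y

/-- The restriction of `μ` to `B_R(x₀)` is invariant under the isometries `x₀ + g (x - x₀)`,
`g` in `Γ`. -/
def Invariant (μ : Measure (E N)) (x₀ : E N) (R : ℝ) (Γ : Set (Iso N)) : Prop :=
  ∀ g ∈ Γ, (μ.restrict (ball x₀ R)).map (fun x => x₀ + app g (x - x₀)) = μ.restrict (ball x₀ R)

/-- Near `x₀` the measure is invariant under a set `Γ` of isometries which fix `x₀ + π` and move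
every nonzero vector orthogonal to `π`; for instance under the reflection in `x₀ + π`. -/
def Symmetric (μ : Measure (E N)) (π : Submodule ℝ (E N)) (x₀ : E N) : Prop :=
  ∃ (R : ℝ) (Γ : Set (Iso N)), 0 < R ∧ FixesOnly Γ π ∧ Invariant μ x₀ R Γ

lemma tr_eq (L : E N →L[ℝ] E N) : tr L = Pool.Agent.TH337.VF.trc L := by
  rw [Pool.Agent.TH337.VF.trc_eq]
  unfold tr
  apply Finset.sum_congr rfl
  intro i _
  rw [EuclideanSpace.basisFun_apply, EuclideanSpace.inner_single_left]
  simp

lemma dz {m : ℕ} {μ : Measure (E N)} {x₀ : E N} {A : Set (E N)} (h : DensityZero m μ x₀ A)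
    (ε : ℝ) (hε : 0 < ε) : ∀ᶠ r in 𝓝[>] (0:ℝ), μ (ball x₀ r ∩ A) ≤ ENNReal.ofReal (ε * r ^ m) := by
  filter_upwards [h.eventually (gt_mem_nhds (ENNReal.ofReal_pos.2 hε)), self_mem_nhdsWithin]
    with r hr hr0
  have hr0' : 0 < r := hr0
  have h1 : ENNReal.ofReal r ^ m ≠ 0 := pow_ne_zero _ (ENNReal.ofReal_pos.2 hr0').ne'
  have h2 : ENNReal.ofReal r ^ m ≠ ⊤ := ENNReal.pow_ne_top ENNReal.ofReal_ne_top
  rw [ENNReal.ofReal_mul hε.le, ENNReal.ofReal_pow hr0'.le]
  exact ((ENNReal.div_lt_iff (Or.inl h1) (Or.inl h2)).1 hr).le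

theorem result {m : ℕ} {U : Set (E N)} (hU : IsOpen U) {μ : Measure (E N)}
    {T : E N → Submodule ℝ (E N)} (hV : IsStationaryVarifold m U μ T)
    (h1 : ∀ᵐ x ∂(μ.restrict U), 1 ≤ density m μ x) {x₀ : E N} (hx₀ : x₀ ∈ U)
    (hd : DensityZero m μ x₀ {x | density m μ x ≠ density m μ x₀}) (π : Submodule ℝ (E N))
    (hcase : Partners m μ π x₀ ∨ (Flat m μ π x₀ ∧ Symmetric μ π x₀)) : Contact μ π x₀ := by
  have hS : Pool.Agent.TH337.VF.Stat m U μ (fun x => (T x).starProjection) := by
    refine ⟨hV.finite_compact, hV.measurable_plane, ?_, ?_, ?_⟩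
    · intro x
      exact Submodule.starProjection_norm_le _
    · filter_upwards [hV.dim_plane] with x hx
      have hx' : Module.finrank ℝ (T x) = m := hx
      rw [Pool.Agent.TH337.VF.trc_starProjection, hx']
    · intro X hX hc hXU
      rw [← hV.stationary X ⟨hX, hc, hXU⟩]
      congr 1
      funext x
      unfold dvg
      rw [tr_eq]
      rfl
  have hW : Pool.Agent.Q261.QS.Vf m U μ (fun x => (T x).starProjection) :=
    ⟨hS, fun x v w => Submodule.inner_starProjection_left_eq_right _ _ _,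
      fun x v => Submodule.starProjection_eq_self_iff.2 (Submodule.starProjection_apply_mem _ _)⟩
  have Ls : ∀ v w : E N, ⟪πᗮ.starProjection v, w⟫ = ⟪v, πᗮ.starProjection w⟫ :=
    fun v w => Submodule.inner_starProjection_left_eq_right _ _ _
  have Li : ∀ v : E N, πᗮ.starProjection (πᗮ.starProjection v) = πᗮ.starProjection v := fun v =>
    Submodule.starProjection_eq_self_iff.2 (Submodule.starProjection_apply_mem _ _)
  rcases hcase with ⟨c, hc, hp⟩ | ⟨hf, R, Γ, hR, ⟨hfix, hmove⟩, hinv⟩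
  · intro k
    exact Pool.Agent.Q261.QS.partners hW hU h1 hx₀ Ls Li (dz hd) hc hp k
  · intro k
    refine Pool.Agent.Q261.QS.symmetric hW hU h1 hx₀ π (dz hd) ?_ Γ hfix hmove hR hinv k
    intro ε hε
    have hf' : Tendsto (fun r : ℝ => (∫ x in ball x₀ r, ‖nrm π (x - x₀)‖ ∂μ) / r ^ (m + 1))
      (𝓝[>] 0) (𝓝 0) := hf
    filter_upwards [hf'.eventually (gt_mem_nhds hε), self_mem_nhdsWithin] with r hr hr0
    have hr0' : 0 < r := hr0
    exact ((div_lt_iff₀ (by positivity)).1 hr).le

end Pool.Agent.Results.MP_8daebb_an.InfiniteContact
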