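import Pool.Agent.Q261.QV.Final

/-!
# The linearised problem: stationary `Q`-valued functions

To first order a stationary integral `m`-varifold near an `m`-plane of multiplicity `Q` is a
`Q`-valued function on the plane which is stationary for the Dirichlet energy; the set where the
density differs from `Q` becomes the set where the `Q` sheets do not all coincide. For these
functions the question has a positive answer, in every dimension and codimension and for every `Q`,
without any minimality or continuity: either all sheets are locally one harmonic function, or the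
set where they do not all coincide has positive lower density at every point.
-/

namespace Pool.Agent.Results.MP_8daebb_an.LinearisedProblem

open MeasureTheory Set Filter Topology Metric
open scoped RealInnerProductSpace ENNReal

/-- Euclidean space `ℝᵐ` -/
abbrev R (m : ℕ) := EuclideanSpace ℝ (Fin m)

/-- the `i`-th vector of the standard basis of `ℝᵐ` -/
noncomputable abbrev e {m : ℕ} (i : Fin m) : R m := EuclideanSpace.single i (1 : ℝ)

/-- the Hilbert-Schmidt product `∑ᵢ ⟨L eᵢ, M eᵢ⟩` of two linear maps -/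
noncomputable def hs {m n : ℕ} (L M : R m →L[ℝ] R n) : ℝ := ∑ i, ⟪L (e i), M (e i)⟫

/-- the trace of an endomorphism of `ℝᵐ` -/
noncomputable def tr {m : ℕ} (L : R m →L[ℝ] R m) : ℝ := ∑ i, L (e i) i

/-- `Q` sheets `u k` on `ℝᵐ` with values in `ℝⁿ`, together with derivative fields `A k` -/
structure Sheets (m n Q : ℕ) where
  /-- the sheets -/
  u : Fin Q → R m → R n
  /-- the derivatives of the sheets -/
  A : Fin Q → R m → R m →L[ℝ] R n

/-- a test function on `Ω × ℝⁿ`: of class `C^1`, with compact support in `Ω × ℝⁿ` -/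
def IsTest {m n d : ℕ} (Ω : Set (R m)) (T : R m × R n → R d) : Prop :=
  ContDiff ℝ 1 T ∧ HasCompactSupport T ∧ tsupport T ⊆ Ω ×ˢ univ

/-- the `i`-th partial derivative at `x` of `x ↦ T (x, v (x))` if `v (x) = y` and `D v (x) = L` -/
noncomputable def partialD {m n d : ℕ} (T : R m × R n → R d) (x : R m) (y : R n)
    (L : R m →L[ℝ] R n) (i : Fin m) : R d :=
  fderiv ℝ T (x, y) (e i, L (e i))

/-- sheets and derivatives are measurable and locally square integrable in `Ω` -/
def Sheets.Energy {m n Q : ℕ} (S : Sheets m n Q) (Ω : Set (R m)) : Prop :=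
  (∀ k, Measurable (S.u k)) ∧ (∀ k, Measurable (S.A k)) ∧
    ∀ K ⊆ Ω, IsCompact K → ∀ k, IntegrableOn (fun x => ‖S.u k x‖ ^ 2 + ‖S.A k x‖ ^ 2) K

/-- chain rule: `∑ₖ div (T (x, uₖ (x)))` has integral zero, where the divergence is formed with the
derivatives `A k`; for the sum of the sheets only, not for each of them -/
def Sheets.Chain {m n Q : ℕ} (S : Sheets m n Q) (Ω : Set (R m)) : Prop :=
  ∀ T : R m × R n → R m, IsTest Ω T →
    ∫ x, ∑ k, ∑ i, ⟪e i, partialD T x (S.u k x) (S.A k x) i⟫ = 0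

/-- outer variations: the derivative of the energy in the direction `T (x, uₖ (x))` is zero -/
def Sheets.Outer {m n Q : ℕ} (S : Sheets m n Q) (Ω : Set (R m)) : Prop :=
  ∀ T : R m × R n → R n, IsTest Ω T →
    ∫ x, ∑ k, ∑ i, ⟪S.A k x (e i), partialD T x (S.u k x) (S.A k x) i⟫ = 0

/-- inner variations: the energy is stationary for the deformations of `Ω` -/
def Sheets.Inner {m n Q : ℕ} (S : Sheets m n Q) (Ω : Set (R m)) : Prop :=
  ∀ W : R m → R m, ContDiff ℝ 1 W → HasCompactSupport W → tsupport W ⊆ Ω →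
    ∫ x, ∑ k, (hs (S.A k x) (S.A k x) * tr (fderiv ℝ W x) -
      2 * hs (S.A k x) (S.A k x ∘L fderiv ℝ W x)) = 0

/-- The sheets `u k` with the derivatives `A k` form a `Q`-valued function on `Ω` which is
stationary for the Dirichlet energy. -/
structure Sheets.IsStationary {m n Q : ℕ} (S : Sheets m n Q) (Ω : Set (R m)) : Prop where
  energy : S.Energy Ω
  chain : S.Chain Ω
  outer : S.Outer Ω
  inner : S.Inner Ω

/-- `H` is of class `C^2` and its Laplacian vanishes on the ball `B_ρ(a)` -/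
def IsHarmonicOnBall {m n : ℕ} (H : R m → R n) (a : R m) (ρ : ℝ) : Prop :=
  ContDiff ℝ 2 H ∧ ∀ x ∈ ball a ρ, ∑ i, fderiv ℝ (fderiv ℝ H) x (e i) (e i) = 0

/-- every point of `Ω` is the centre of a ball in which one harmonic function is almost everywhere
equal to all the sheets -/
def Sheets.LocallyOneHarmonic {m n Q : ℕ} (S : Sheets m n Q) (Ω : Set (R m)) : Prop :=
  ∀ a ∈ Ω, ∃ (ρ : ℝ) (H : R m → R n), 0 < ρ ∧ IsHarmonicOnBall H a ρ ∧
    ∀ᵐ x ∂(volume.restrict (ball a ρ)), ∀ k, S.u k x = H x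

/-- the set where the sheets do not all coincide -/
def Sheets.nonCoincidence {m n Q : ℕ} (S : Sheets m n Q) : Set (R m) :=
  {x | ∃ k l, S.u k x ≠ S.u l x}

/-- `E` has positive lower density at `a` -/
def PositiveLowerDensity {m : ℕ} (E : Set (R m)) (a : R m) : Prop :=
  ∃ ε : ℝ, 0 < ε ∧ ∀ᶠ r in 𝓝[>] (0 : ℝ), ENNReal.ofReal (ε * r ^ m) ≤ volume (closedBall a r ∩ E)

/-- the sheets separate to finite order at `a` -/
def Sheets.FiniteOrder {m n Q : ℕ} (S : Sheets m n Q) (a : R m) : Prop :=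
  ∃ N : ℕ, ∀ᶠ r in 𝓝[>] (0 : ℝ),
    r ^ N ≤ ∫ x in closedBall a r, ∑ k, ∑ l, ‖S.u k x - S.u l x‖ ^ 2

theorem result {m n Q : ℕ} {Ω : Set (R m)} (hΩ : IsOpen Ω) (hconn : IsPreconnected Ω)
    {S : Sheets m n Q} (h : S.IsStationary Ω) :
    S.LocallyOneHarmonic Ω ∨
    (volume (Ω \ S.nonCoincidence) = 0 ∧
      ∀ a ∈ Ω, PositiveLowerDensity S.nonCoincidence a ∧ S.FiniteOrder a) := by
  obtain ⟨⟨h1, h2, h3⟩, h4, h5, h6⟩ := h
  have hS : Q261.QV.St Ω S.u S.A := ⟨h1, h2, h3, fun T hT hc hs => h4 T ⟨hT, hc, hs⟩,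
    fun T hT hc hs => h5 T ⟨hT, hc, hs⟩, h6⟩
  rcases hS.dichotomy hΩ hconn with h1 | ⟨h1, h2⟩
  · left
    intro a ha
    obtain ⟨ρ, H, hρ, hH, hHh, hHu⟩ := h1 a ha
    exact ⟨ρ, H, hρ, ⟨hH, hHh⟩, hHu⟩
  · right
    refine ⟨?_, h2⟩
    have e : Ω \ S.nonCoincidence = Ω ∩ {x | ∀ k l, S.u k x = S.u l x} := by
      ext x
      simp [Sheets.nonCoincidence]
    rw [e]
    exact h1

end Pool.Agent.Results.MP_8daebb_an.LinearisedProblem
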