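import Mathlib
import Pool.Agent.Q261.QS.Order

/-!
MP_8daebb_an: one-sided contact of a stationary varifold with a hyperplane.
-/

namespace Pool.Agent.Results.MP_8daebb_an.OneSidedContact

open MeasureTheory Set Filter Topology Metric
open Pool.Agent.TH337.VF (density)
open scoped ENNReal RealInnerProductSpace

/-- Euclidean space. -/
abbrev E (N : ℕ) := EuclideanSpace ℝ (Fin N)

variable {N : ℕ}

/-- The orthogonal projection onto a plane. -/
noncomputable def proj (S : Submodule ℝ (E N)) : E N →L[ℝ] E N := S.starProjection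

/-- The dimension of a plane. -/
noncomputable def dim (S : Submodule ℝ (E N)) : ℕ := Module.finrank ℝ S

/-- The trace, the sum of the diagonal entries. -/
noncomputable def tr (L : E N →L[ℝ] E N) : ℝ := ∑ i, L (EuclideanSpace.single i 1) i

/-- The divergence of `X` along the plane `S`: the trace of the projection onto `S` composed with
the derivative of `X`. -/
noncomputable def dvg (S : Submodule ℝ (E N)) (X : E N → E N) (x : E N) : ℝ :=
  tr (proj S ∘L fderiv ℝ X x)

/-- The plane field is measurable. -/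
def MeasurablePlanes (T : E N → Submodule ℝ (E N)) : Prop := Measurable fun x => proj (T x)

/-- `X` is a `C¹` vector field with compact support in `U`. -/
def IsTestField (U : Set (E N)) (X : E N → E N) : Prop :=
  ContDiff ℝ 1 X ∧ HasCompactSupport X ∧ tsupport X ⊆ U

/-- The weight measure `μ` together with the field of tangent planes `T` is a stationary
`m`-dimensional varifold in `U`: `μ` is finite on compact subsets of `U`, the plane field is
measurable, `T x` is an `m`-plane for `μ`-almost every `x` in `U`, and the first variation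
vanishes. -/
structure IsStationaryVarifold (m : ℕ) (U : Set (E N)) (μ : Measure (E N))
    (T : E N → Submodule ℝ (E N)) : Prop where
  finite_compact : ∀ K ⊆ U, IsCompact K → μ K < ⊤
  measurable_plane : MeasurablePlanes T
  dim_plane : ∀ᵐ x ∂(μ.restrict U), dim (T x) = m
  stationary : ∀ X : E N → E N, IsTestField U X → ∫ x, dvg (T x) X x ∂μ = 0

/-- The part of the mass in `A` has density zero at `x₀`: `μ (A ∩ B_r(x₀)) / r ^ m → 0`. -/
def DensityZero (m : ℕ) (μ : Measure (E N)) (x₀ : E N) (A : Set (E N)) : Prop :=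
  Tendsto (fun r : ℝ => μ (ball x₀ r ∩ A) / ENNReal.ofReal r ^ m) (𝓝[>] 0) (𝓝 0)

/-- The linear function `⟨v, x - x₀⟩`. -/
noncomputable def lin (v x₀ x : E N) : ℝ := ⟪v, x - x₀⟫

lemma tr_eq (L : E N →L[ℝ] E N) : tr L = Pool.Agent.TH337.VF.trc L := by
  rw [Pool.Agent.TH337.VF.trc_eq]
  unfold tr
  apply Finset.sum_congr rfl
  intro i _
  rw [EuclideanSpace.basisFun_apply, EuclideanSpace.inner_single_left]
  simp

lemma dz {m : ℕ} {μ : Measure (E N)} {x₀ : E N} {A : Set (E N)} (h : DensityZero m μ x₀ A)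
    (ε : ℝ) (hε : 0 < ε) : ∀ᶠ r in 𝓝[>] (0:ℝ), μ (ball x₀ r ∩ A) ≤ ENNReal.ofReal (ε * r ^ m) := by
  filter_upwards [h.eventually (gt_mem_nhds (ENNReal.ofReal_pos.2 hε)), self_mem_nhdsWithin]
    with r hr hr0
  have hr0' : 0 < r := hr0
  have h1 : ENNReal.ofReal r ^ m ≠ 0 := pow_ne_zero _ (ENNReal.ofReal_pos.2 hr0').ne'
  have h2 : ENNReal.ofReal r ^ m ≠ ⊤ := ENNReal.pow_ne_top ENNReal.ofReal_ne_top
  rw [ENNReal.ofReal_mul hε.le, ENNReal.ofReal_pow hr0'.le]
  exact ((ENNReal.div_lt_iff (Or.inl h1) (Or.inl h2)).1 hr).le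

theorem result {m : ℕ} {U : Set (E N)} (hU : IsOpen U) {μ : Measure (E N)}
    {T : E N → Submodule ℝ (E N)} (hV : IsStationaryVarifold m U μ T)
    (h1 : ∀ᵐ x ∂(μ.restrict U), 1 ≤ density m μ x) {x₀ : E N} (hx₀ : x₀ ∈ U) (v : E N) (k : ℕ)
    (C : ℝ) (h : DensityZero m μ x₀ {x | C * ‖x - x₀‖ ^ k < lin v x₀ x}) :
    ∃ C' ρ : ℝ, 0 < ρ ∧ ∀ᵐ x ∂(μ.restrict (ball x₀ ρ)), |lin v x₀ x| ≤ C' * ‖x - x₀‖ ^ k := by
  have hS : Pool.Agent.TH337.VF.Stat m U μ (fun x => (T x).starProjection) := by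
    refine ⟨hV.finite_compact, hV.measurable_plane, ?_, ?_, ?_⟩
    · intro x
      exact Submodule.starProjection_norm_le _
    · filter_upwards [hV.dim_plane] with x hx
      have hx' : Module.finrank ℝ (T x) = m := hx
      rw [Pool.Agent.TH337.VF.trc_starProjection, hx']
    · intro X hX hc hXU
      rw [← hV.stationary X ⟨hX, hc, hXU⟩]
      congr 1
      funext x
      unfold dvg
      rw [tr_eq]
      rfl
  have hW : Pool.Agent.Q261.QS.Vf m U μ (fun x => (T x).starProjection) :=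
    ⟨hS, fun x v w => Submodule.inner_starProjection_left_eq_right _ _ _,
      fun x v => Submodule.starProjection_eq_self_iff.2 (Submodule.starProjection_apply_mem _ _)⟩
  obtain ⟨C₂, ρ, hρ, h2⟩ := Pool.Agent.Q261.QS.order hW hU h1 hx₀ (v := v) (C := max C 0)
    (le_max_right _ _) k (by
    intro ε hε
    filter_upwards [dz h ε hε, self_mem_nhdsWithin] with r hr hr0
    refine (measure_mono ?_).trans hr
    rintro x ⟨hx1, hx2⟩
    refine ⟨hx1, ?_⟩
    have hx2' : max C 0 * r ^ k < ⟪v, x - x₀⟫ := hx2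
    have hx3 : ‖x - x₀‖ < r := by rwa [mem_ball, dist_eq_norm] at hx1
    show C * ‖x - x₀‖ ^ k < ⟪v, x - x₀⟫
    calc C * ‖x - x₀‖ ^ k ≤ max C 0 * ‖x - x₀‖ ^ k :=
          mul_le_mul_of_nonneg_right (le_max_left _ _) (by positivity)
      _ ≤ max C 0 * r ^ k := by gcongr
      _ < _ := hx2')
  refine ⟨max C₂ 0 * 2 ^ k, ρ, hρ, ?_⟩
  have h3 : ∀ j : ℕ, ∀ᵐ x ∂(μ.restrict (ball x₀ ρ)), x ∈ ball x₀ (ρ / 2 ^ j) →
      |⟪v, x - x₀⟫| ≤ C₂ * (ρ / 2 ^ j) ^ k := by
    intro j
    have h4 := h2 (ρ / 2 ^ j) (by positivity) (div_le_self hρ.le (one_le_pow₀ (by norm_num)))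
    exact ae_restrict_of_ae ((ae_restrict_iff' measurableSet_ball).1 h4)
  filter_upwards [ae_all_iff.2 h3, ae_restrict_mem measurableSet_ball] with x hx1 hx2
  show |⟪v, x - x₀⟫| ≤ max C₂ 0 * 2 ^ k * ‖x - x₀‖ ^ k
  by_cases hx0 : x = x₀
  · subst hx0
    rw [sub_self, inner_zero_right, abs_zero, norm_zero]
    positivity
  have hn : 0 < ‖x - x₀‖ := norm_pos_iff.2 (sub_ne_zero.2 hx0)
  have hxρ : ‖x - x₀‖ < ρ := by rwa [mem_ball, dist_eq_norm] at hx2
  -- choose the dyadic scale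
  obtain ⟨j, hj1, hj2⟩ := exists_nat_pow_near (show (1:ℝ) ≤ ρ / ‖x - x₀‖ by
    rw [one_le_div hn]
    exact hxρ.le) (show (1:ℝ) < 2 by norm_num)
  rcases hj1.lt_or_eq with hj1 | hj1
  · have h5 : x ∈ ball x₀ (ρ / 2 ^ j) := by
      rw [mem_ball, dist_eq_norm, lt_div_iff₀ (by positivity)]
      rw [lt_div_iff₀ hn] at hj1
      linarith
    have h6 := hx1 j h5
    have h7 : ρ / 2 ^ j ≤ 2 * ‖x - x₀‖ := by
      rw [div_lt_iff₀ hn, pow_succ] at hj2
      rw [div_le_iff₀ (by positivity)]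
      nlinarith
    calc |⟪v, x - x₀⟫| ≤ C₂ * (ρ / 2 ^ j) ^ k := h6
      _ ≤ max C₂ 0 * (ρ / 2 ^ j) ^ k := mul_le_mul_of_nonneg_right (le_max_left _ _) (by positivity)
      _ ≤ max C₂ 0 * (2 * ‖x - x₀‖) ^ k := by gcongr
      _ = _ := by
        rw [mul_pow]
        ring
  · -- equality: use the previous scale
    rcases Nat.eq_zero_or_pos j with hj0 | hj0
    · rw [hj0, pow_zero, eq_div_iff hn.ne', one_mul] at hj1
      exact absurd hj1 hxρ.ne
    · have h8 : ‖x - x₀‖ = ρ / 2 ^ j := by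
        rw [eq_div_iff hn.ne'] at hj1
        rw [eq_div_iff (by positivity)]
        linarith
      have h9 : ρ / 2 ^ (j - 1) = 2 * ‖x - x₀‖ := by
        rw [h8]
        have h10 : (2:ℝ) ^ j = 2 ^ (j - 1) * 2 := by
          rw [← pow_succ, Nat.sub_add_cancel hj0]
        rw [h10]
        field_simp
      have h5 : x ∈ ball x₀ (ρ / 2 ^ (j - 1)) := by
        rw [mem_ball, dist_eq_norm, h9]
        linarith
      have h6 := hx1 (j - 1) h5
      rw [h9] at h6
      calc |⟪v, x - x₀⟫| ≤ C₂ * (2 * ‖x - x₀‖) ^ k := h6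
        _ ≤ max C₂ 0 * (2 * ‖x - x₀‖) ^ k := mul_le_mul_of_nonneg_right (le_max_left _ _) (by positivity)
        _ = _ := by
          rw [mul_pow]
          ring

end Pool.Agent.Results.MP_8daebb_an.OneSidedContact
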